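import Mathlib
import Pool.Agent.Helper269.KdDefs
import Pool.Agent.Helper662.RicDefs
import Pool.Agent.Helper662.RdN

set_option autoImplicit false

namespace Pool.Agent.Results.MP_93b649_gt.NoBoundedHolomorphic

open Pool.Agent.Helper269.KdDefs Pool.Agent.Helper662.RicDefs

/-- There are a simply connected open set `U ⊆ ℂ²` and a complete Kähler metric `g` on `U`,
all of whose sectional curvatures are `≤ 0`, with `Ric(p) ≤ -A / (1 + ρ(p)²)` for all `p ∈ U`
and some `A > 0` (`ρ` = Riemannian distance to a point `p₀` of `U`), on which every bounded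
holomorphic function is constant. -/
theorem result : ∃ (U : Set (ℂ × ℂ)) (g : ℂ × ℂ → LinearMap.BilinForm ℝ (ℂ × ℂ))
    (p₀ : ℂ × ℂ),
    IsOpen U ∧ SimplyConnectedSpace U ∧ IsKahlerMetricOn U g ∧ IsCompleteFor U g ∧
      HasNonposSecCurv U g ∧ p₀ ∈ U ∧ HasRicciDecay U g p₀ ∧
      ∀ f : ℂ × ℂ → ℂ, IsBddHol U f → ∃ c : ℂ, ∀ p ∈ U, f p = c :=
  Pool.Agent.Helper662.RdN.main

end Pool.Agent.Results.MP_93b649_gt.NoBoundedHolomorphic
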